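import Mathlib
import Pool.Agent.H58.Cat.Final

/-!
# Weighted coincidences of the 2-adic and 3-adic valuations of Catalan numbers

Let `F b N` be the `b`-adic valuation of the central binomial coefficient of `N`, for `b = 2, 3`. It
counts the carries of `N + N` in base `b`. If `3 ∣ n + 1` then the two valuations of the `n`-th
Catalan number are `F 2 (n + 1) - 1` and `F 3 (n + 1)`.

(1) Boxes. For arbitrarily large `L` there is a square of side at least `L / 16` all of whose integer
points are of the form `(F 2 e, F 3 e)` with `e < 2 ^ L` and `3 ∣ e`. The step from `L` to `10 L` adds
`2 ^ i 3 ^ j z` with `z` random; the counts in the two bases are controlled by second moments. The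
start, at scale 80000, is an explicit construction with powers of two and three, checked by the kernel.

(2) Sparse numbers. Let `{p, q} = {2, 3}`, let `P` be a power of `p` and let `X` be a random number
with base `P` digits in `{0, 1}` or `{1, 2}`. Then `F p X` is known, and `F q X` is close to half the
number of digits. For the exponential sums the average over the powers `q ^ d θ` of the product of the
`|cos (π P ^ i θ)|` is small, since either `θ` has no long constant run of digits, or the digits above
such a run are equidistributed when `θ` is multiplied by the powers of `q`.

(3) By (2) there are numbers `N'` divisible by `2 ^ (L + 1)` and by `3 ^ j > 2 ^ (L + 1)` for which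
`a F 2 N' - b F 3 N'` is within `L / 32` of a prescribed value, and (1) gives `e` such that `N' + e` is
an exact solution.
-/

set_option autoImplicit false

namespace Pool.Agent.Results.MP_b88151_nt.WeightedCoincidences

/-- For all `a, b ≥ 1` there are infinitely many positive `n` with `a ν₂(Cₙ) = b ν₃(Cₙ)`. -/
theorem result (a b : ℕ) (ha : 1 ≤ a) (hb : 1 ≤ b) :
    {n : ℕ | 0 < n ∧
      a * padicValNat 2 (catalan n) = b * padicValNat 3 (catalan n)}.Infinite := by
  apply Set.infinite_of_forall_exists_gt
  intro N
  obtain ⟨n, hn, hpos, h⟩ := Pool.Agent.H58.Cat.main a b ha hb (N + 1)
  exact ⟨n, ⟨hpos, h⟩, by omega⟩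

end Pool.Agent.Results.MP_b88151_nt.WeightedCoincidences
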